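import Pool.Agent.Lib.MP_ba0fa5_ag.Iface
import Pool.Agent.Lib.MP_3ae5b0_nt.DivBound

/-!
# Module NPHI, part 1: expansion of `Phi ^ 3`, Euler products, totients
-/

set_option autoImplicit false

namespace Pool.Agent.Lib.MP_ba0fa5_ag.H78

open scoped Classical
open Finset

/-- the weight `26 ^ ω(w) / w` -/
noncomputable def gw (w : ℕ) : ℝ := ∏ l ∈ w.primeFactors, (26 / (l : ℝ))

/-- squarefree numbers without prime factors in `S` -/
def SF (S : Set ℕ) (w : ℕ) : Prop := Squarefree w ∧ ∀ l : ℕ, l.Prime → l ∣ w → l ∉ S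

theorem gw_nonneg (w : ℕ) : 0 ≤ gw w := Finset.prod_nonneg fun l _ => by positivity

theorem squarefree_prod_primes {A : Finset ℕ} (hA : ∀ p ∈ A, p.Prime) :
    Squarefree (∏ p ∈ A, p) := by
  refine Finset.squarefree_prod_of_pairwise_isCoprime ?_ ?_
  · intro p hp q hq hpq
    rw [Function.onFun, ← Nat.coprime_iff_isRelPrime]
    exact (Nat.coprime_primes (hA p hp) (hA q hq)).2 hpq
  · intro p hp
    exact (Nat.prime_iff.1 (hA p hp)).squarefree

theorem phi_cube (S : Set ℕ) {n : ℕ} (hn : n ≠ 0) :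
    Phi S n ^ 3 ≤ ∑ w ∈ n.divisors.filter (SF S), gw w := by
  unfold Phi
  set T := n.primeFactors.filter (fun l => l ∉ S) with hT
  have hTp : ∀ p ∈ T, p.Prime := fun p hp => Nat.prime_of_mem_primeFactors (mem_filter.1 hp).1
  rw [← Finset.prod_pow]
  have h1 : ∏ l ∈ T, (1 + 2 / (l : ℝ)) ^ 3 ≤ ∏ l ∈ T, (1 + 26 / (l : ℝ)) := by
    refine Finset.prod_le_prod (fun l _ => by positivity) fun l hl => ?_
    have h2 : (1 : ℝ) ≤ l := by exact_mod_cast (hTp l hl).one_lt.le
    have h3 : 0 < (l : ℝ) := by linarith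
    have h4 : (1 : ℝ) / l ≤ 1 := by rw [div_le_one h3]; exact h2
    have h5 : 0 ≤ (1 : ℝ) / l := by positivity
    have e1 : (2 : ℝ) / l = 2 * (1 / l) := by ring
    have e2 : (26 : ℝ) / l = 26 * (1 / l) := by ring
    rw [e1, e2]
    obtain ⟨y, hy⟩ : ∃ y : ℝ, y = 1 / l := ⟨_, rfl⟩
    rw [← hy] at h4 h5 ⊢
    nlinarith [mul_nonneg h5 h5, mul_nonneg (mul_nonneg h5 h5) (sub_nonneg.2 h4),
      mul_nonneg h5 (sub_nonneg.2 h4)]
  refine h1.trans ?_
  rw [Finset.prod_one_add]
  have h2 : ∀ A ∈ T.powerset, ∏ l ∈ A, (26 / (l : ℝ)) = gw (∏ l ∈ A, l) := by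
    intro A hA
    unfold gw
    rw [Nat.primeFactors_prod (fun p hp => hTp p (mem_powerset.1 hA hp))]
  rw [Finset.sum_congr rfl h2]
  have hinj : Set.InjOn (fun A : Finset ℕ => ∏ l ∈ A, l) (T.powerset : Set (Finset ℕ)) := by
    intro A hA A' hA' h
    have e1 := Nat.primeFactors_prod (fun p hp => hTp p (mem_powerset.1 hA hp))
    have e2 := Nat.primeFactors_prod (fun p hp => hTp p (mem_powerset.1 hA' hp))
    rw [← e1, ← e2]
    exact congrArg Nat.primeFactors h
  rw [← Finset.sum_image (f := gw) hinj]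
  refine Finset.sum_le_sum_of_subset_of_nonneg ?_ (fun w _ _ => gw_nonneg w)
  intro w hw
  rw [mem_image] at hw
  obtain ⟨A, hA, rfl⟩ := hw
  rw [mem_powerset] at hA
  rw [mem_filter, Nat.mem_divisors]
  have hAp : ∀ p ∈ A, p.Prime := fun p hp => hTp p (hA hp)
  refine ⟨⟨?_, hn⟩, squarefree_prod_primes hAp, ?_⟩
  · refine dvd_trans ?_ (Nat.prod_primeFactors_dvd n)
    exact Finset.prod_dvd_prod_of_subset A n.primeFactors (fun p => p)
      (fun p hp => (mem_filter.1 (hA hp)).1)
  · intro l hl hdvd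
    have : l ∈ (∏ p ∈ A, p).primeFactors :=
      Nat.mem_primeFactors.2 ⟨hl, hdvd, (squarefree_prod_primes hAp).ne_zero⟩
    rw [Nat.primeFactors_prod hAp] at this
    exact (mem_filter.1 (hA this)).2

/-- Sums of multiplicative functions over squarefree numbers are bounded by Euler products. -/
theorem euler_le (h : ℕ → ℝ) (h0 : ∀ l, 0 ≤ h l) (N : ℕ) (I : Finset ℕ)
    (hI : ∀ w ∈ I, Squarefree w ∧ w ≤ N) :
    ∑ w ∈ I, ∏ l ∈ w.primeFactors, h l ≤ ∏ l ∈ (range (N + 1)).filter Nat.Prime, (1 + h l) := by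
  rw [Finset.prod_one_add]
  have hinj : Set.InjOn Nat.primeFactors (I : Set ℕ) := by
    intro w hw w' hw' e
    rw [← Nat.prod_primeFactors_of_squarefree (hI w hw).1,
      ← Nat.prod_primeFactors_of_squarefree (hI w' hw').1]
    rw [e]
  rw [← Finset.sum_image (f := fun A => ∏ l ∈ A, h l) hinj]
  refine Finset.sum_le_sum_of_subset_of_nonneg ?_
    (fun A _ _ => Finset.prod_nonneg fun l _ => h0 l)
  intro A hA
  rw [mem_image] at hA
  obtain ⟨w, hw, rfl⟩ := hA
  rw [mem_powerset]
  intro l hl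
  rw [mem_filter, mem_range]
  have h1 := Nat.le_of_mem_primeFactors hl
  have h2 := (hI w hw).2
  exact ⟨by omega, Nat.prime_of_mem_primeFactors hl⟩

/-- the part of `w` prime to `t` -/
theorem lcm_eq {t w : ℕ} (hw : Squarefree w) :
    Nat.lcm t w = t * ∏ l ∈ w.primeFactors.filter (fun l => ¬ l ∣ t), l := by
  set A := w.primeFactors.filter (fun l => ¬ l ∣ t) with hA
  have hAp : ∀ p ∈ A, p.Prime := fun p hp => Nat.prime_of_mem_primeFactors (mem_filter.1 hp).1
  have hcop : t.Coprime (∏ l ∈ A, l) := by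
    apply Nat.Coprime.prod_right
    intro l hl
    exact ((hAp l hl).coprime_iff_not_dvd.2 (mem_filter.1 hl).2).symm
  apply Nat.dvd_antisymm
  · apply Nat.lcm_dvd (dvd_mul_right _ _)
    have h1 : w = (∏ l ∈ w.primeFactors.filter (fun l => l ∣ t), l) * ∏ l ∈ A, l := by
      conv_lhs => rw [← Nat.prod_primeFactors_of_squarefree hw]
      rw [hA, Finset.prod_filter_mul_prod_filter_not]
    conv_lhs => rw [h1]
    apply mul_dvd_mul_right
    refine Finset.prod_primes_dvd _ (fun p hp => ?_) (fun p hp => (mem_filter.1 hp).2)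
    exact Nat.prime_iff.1 (Nat.prime_of_mem_primeFactors (mem_filter.1 hp).1)
  · apply hcop.mul_dvd_of_dvd_of_dvd (Nat.dvd_lcm_left t w)
    refine dvd_trans ?_ (Nat.dvd_lcm_right t w)
    refine dvd_trans ?_ (Nat.prod_primeFactors_dvd w)
    exact Finset.prod_dvd_prod_of_subset A w.primeFactors (fun p => p)
      (fun p hp => (mem_filter.1 hp).1)

theorem totient_prod {A : Finset ℕ} (hA : ∀ p ∈ A, p.Prime) :
    Nat.totient (∏ p ∈ A, p) = ∏ p ∈ A, (p - 1) := by
  induction A using Finset.induction_on with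
  | empty => simp
  | insert a s ha ih =>
    rw [Finset.prod_insert ha, Finset.prod_insert ha]
    have hap := hA a (mem_insert_self a s)
    have hcop : a.Coprime (∏ p ∈ s, p) := by
      apply Nat.Coprime.prod_right
      intro q hq
      refine (Nat.coprime_primes hap (hA q (mem_insert_of_mem hq))).2 ?_
      rintro rfl
      exact ha hq
    rw [Nat.totient_mul hcop, Nat.totient_prime hap,
      ih (fun p hp => hA p (mem_insert_of_mem hp))]

/-- the local factors of `gw w / φ (lcm t w)` -/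
noncomputable def hf (t l : ℕ) : ℝ := if l ∣ t then 26 / (l : ℝ) else 26 / ((l : ℝ) * ((l : ℝ) - 1))

theorem hf_nonneg (t l : ℕ) : 0 ≤ hf t l := by
  unfold hf
  split_ifs
  · positivity
  · rcases Nat.eq_zero_or_pos l with h | h
    · subst h; simp
    · have h1 : (1 : ℝ) ≤ l := by exact_mod_cast h
      exact div_nonneg (by norm_num) (mul_nonneg (by linarith) (by linarith))

theorem term_eq {t w : ℕ} (ht : 1 ≤ t) (hw : Squarefree w) :
    gw w / (Nat.totient (Nat.lcm t w) : ℝ) =
      1 / (Nat.totient t : ℝ) * ∏ l ∈ w.primeFactors, hf t l := by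
  set A := w.primeFactors.filter (fun l => ¬ l ∣ t) with hA
  have hAp : ∀ p ∈ A, p.Prime := fun p hp => Nat.prime_of_mem_primeFactors (mem_filter.1 hp).1
  have hcop : t.Coprime (∏ l ∈ A, l) := by
    apply Nat.Coprime.prod_right
    intro l hl
    exact ((hAp l hl).coprime_iff_not_dvd.2 (mem_filter.1 hl).2).symm
  rw [lcm_eq hw, Nat.totient_mul hcop, totient_prod hAp]
  have hcast : ((∏ p ∈ A, (p - 1) : ℕ) : ℝ) = ∏ p ∈ A, ((p : ℝ) - 1) := by
    rw [Nat.cast_prod]
    apply Finset.prod_congr rfl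
    intro p hp
    rw [Nat.cast_sub (hAp p hp).one_lt.le, Nat.cast_one]
  rw [Nat.cast_mul, hcast]
  have h1 : gw w = (∏ l ∈ w.primeFactors.filter (fun l => l ∣ t), (26 / (l : ℝ))) *
      ∏ l ∈ A, (26 / (l : ℝ)) := by
    unfold gw
    rw [hA, Finset.prod_filter_mul_prod_filter_not]
  have h2 : ∏ l ∈ w.primeFactors, hf t l =
      (∏ l ∈ w.primeFactors.filter (fun l => l ∣ t), (26 / (l : ℝ))) *
      ∏ l ∈ A, (26 / ((l : ℝ) * ((l : ℝ) - 1))) := by
    rw [← Finset.prod_filter_mul_prod_filter_not w.primeFactors (fun l => l ∣ t)]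
    congr 1
    · apply Finset.prod_congr rfl
      intro l hl
      unfold hf
      rw [if_pos (mem_filter.1 hl).2]
    · apply Finset.prod_congr rfl
      intro l hl
      unfold hf
      rw [if_neg (mem_filter.1 hl).2]
  have h3 : ∏ l ∈ A, (26 / ((l : ℝ) * ((l : ℝ) - 1))) =
      (∏ l ∈ A, (26 / (l : ℝ))) / ∏ l ∈ A, ((l : ℝ) - 1) := by
    rw [← Finset.prod_div_distrib]
    apply Finset.prod_congr rfl
    intro l _
    rw [div_div]
  rw [h1, h2, h3]
  have h4 : ∏ l ∈ A, ((l : ℝ) - 1) ≠ 0 := by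
    rw [Finset.prod_ne_zero_iff]
    intro l hl
    have : (1 : ℝ) < l := by exact_mod_cast (hAp l hl).one_lt
    linarith
  have h5 : (Nat.totient t : ℝ) ≠ 0 := by
    have : 0 < Nat.totient t := Nat.totient_pos.2 (by omega)
    exact_mod_cast this.ne'
  field_simp

theorem telescope (N : ℕ) (hN : 1 ≤ N) :
    ∑ l ∈ Icc 2 N, 1 / ((l : ℝ) * ((l : ℝ) - 1)) = 1 - 1 / N := by
  induction N, hN using Nat.le_induction with
  | base => simp
  | succ N hN ih =>
    rw [Finset.sum_Icc_succ_top (by omega), ih]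
    have h1 : (0 : ℝ) < N := by exact_mod_cast hN
    push_cast
    have h2 : ((N : ℝ) + 1 - 1) = N := by ring
    rw [h2]
    field_simp
    ring

theorem prod_mono {s t : Finset ℕ} (hst : s ⊆ t) (f : ℕ → ℝ) (h : ∀ l ∈ t, 1 ≤ f l) :
    ∏ l ∈ s, f l ≤ ∏ l ∈ t, f l := by
  rw [← Finset.prod_sdiff hst]
  have h1 : 1 ≤ ∏ l ∈ t \ s, f l := by
    calc (1 : ℝ) = ∏ l ∈ t \ s, (1 : ℝ) := by simp
      _ ≤ ∏ l ∈ t \ s, f l :=
        Finset.prod_le_prod (fun _ _ => by norm_num) fun l hl => h l (mem_sdiff.1 hl).1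
  have h2 : 0 ≤ ∏ l ∈ s, f l :=
    Finset.prod_nonneg fun l hl => le_trans (by norm_num) (h l (hst hl))
  nlinarith

theorem euler_bd {t : ℕ} (ht : 1 ≤ t) (N : ℕ) :
    ∏ l ∈ (range (N + 1)).filter Nat.Prime, (1 + hf t l) ≤ Psi t * Real.exp 26 := by
  rw [← Finset.prod_filter_mul_prod_filter_not ((range (N + 1)).filter Nat.Prime)
    (fun l => l ∣ t)]
  have hpsi : 0 ≤ Psi t := Finset.prod_nonneg fun l _ => by positivity
  refine mul_le_mul ?_ ?_ (Finset.prod_nonneg fun l _ => by linarith [hf_nonneg t l]) hpsi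
  · calc ∏ l ∈ ((range (N + 1)).filter Nat.Prime).filter (fun l => l ∣ t), (1 + hf t l)
        ≤ ∏ l ∈ ((range (N + 1)).filter Nat.Prime).filter (fun l => l ∣ t),
            (1 + 52 / (l : ℝ)) := by
          refine Finset.prod_le_prod (fun l _ => by linarith [hf_nonneg t l]) fun l hl => ?_
          unfold hf
          rw [if_pos (mem_filter.1 hl).2]
          have : 26 / (l : ℝ) ≤ 52 / l := by
            apply div_le_div_of_nonneg_right (by norm_num) (Nat.cast_nonneg l)
          linarith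
      _ ≤ ∏ l ∈ t.primeFactors, (1 + 52 / (l : ℝ)) := by
          refine prod_mono ?_ (fun l => 1 + 52 / (l : ℝ)) ?_
          · intro l hl
            rw [mem_filter, mem_filter] at hl
            exact Nat.mem_primeFactors.2 ⟨hl.1.2, hl.2, by omega⟩
          · intro l _
            have : 0 ≤ 52 / (l : ℝ) := by positivity
            show (1 : ℝ) ≤ 1 + 52 / (l : ℝ)
            linarith
      _ = Psi t := rfl
  · calc ∏ l ∈ ((range (N + 1)).filter Nat.Prime).filter (fun l => ¬ l ∣ t), (1 + hf t l)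
        ≤ ∏ l ∈ ((range (N + 1)).filter Nat.Prime).filter (fun l => ¬ l ∣ t),
            Real.exp (hf t l) := by
          refine Finset.prod_le_prod (fun l _ => by linarith [hf_nonneg t l]) fun l _ => ?_
          have := Real.add_one_le_exp (hf t l)
          linarith
      _ = Real.exp (∑ l ∈ ((range (N + 1)).filter Nat.Prime).filter (fun l => ¬ l ∣ t),
            hf t l) := by rw [Real.exp_sum]
      _ ≤ Real.exp 26 := by
          apply Real.exp_le_exp.2
          have h1 : ∑ l ∈ ((range (N + 1)).filter Nat.Prime).filter (fun l => ¬ l ∣ t), hf t l ≤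
              ∑ l ∈ Icc 2 (N + 1), 26 * (1 / ((l : ℝ) * ((l : ℝ) - 1))) := by
            have h2 : ∑ l ∈ ((range (N + 1)).filter Nat.Prime).filter (fun l => ¬ l ∣ t),
                hf t l = ∑ l ∈ ((range (N + 1)).filter Nat.Prime).filter (fun l => ¬ l ∣ t),
                  26 * (1 / ((l : ℝ) * ((l : ℝ) - 1))) := by
              apply Finset.sum_congr rfl
              intro l hl
              unfold hf
              rw [if_neg (mem_filter.1 hl).2]
              ring
            rw [h2]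
            refine Finset.sum_le_sum_of_subset_of_nonneg ?_ ?_
            · intro l hl
              rw [mem_filter, mem_filter, mem_range] at hl
              rw [mem_Icc]
              exact ⟨hl.1.2.two_le, by omega⟩
            · intro l hl _
              rw [mem_Icc] at hl
              have : (2 : ℝ) ≤ l := by exact_mod_cast hl.1
              have h3 : 0 ≤ (l : ℝ) * ((l : ℝ) - 1) := mul_nonneg (by linarith) (by linarith)
              positivity
          refine h1.trans ?_
          rw [← Finset.mul_sum, telescope (N + 1) (by omega)]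
          have : (0 : ℝ) ≤ 1 / ((N + 1 : ℕ) : ℝ) := by positivity
          linarith

/-- The main sum over small `w`. -/
theorem small_sum {t : ℕ} (ht : 1 ≤ t) (N : ℕ) (I : Finset ℕ)
    (hI : ∀ w ∈ I, Squarefree w ∧ w ≤ N) :
    ∑ w ∈ I, gw w / (Nat.totient (Nat.lcm t w) : ℝ) ≤
      Psi t / (Nat.totient t : ℝ) * Real.exp 26 := by
  have h1 : ∀ w ∈ I, gw w / (Nat.totient (Nat.lcm t w) : ℝ) =
      1 / (Nat.totient t : ℝ) * ∏ l ∈ w.primeFactors, hf t l :=
    fun w hw => term_eq ht (hI w hw).1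
  rw [Finset.sum_congr rfl h1, ← Finset.mul_sum]
  have h2 := (euler_le (hf t) (hf_nonneg t) N I hI).trans (euler_bd ht N)
  have h3 : 0 ≤ 1 / (Nat.totient t : ℝ) := by positivity
  calc 1 / (Nat.totient t : ℝ) * ∑ w ∈ I, ∏ l ∈ w.primeFactors, hf t l
      ≤ 1 / (Nat.totient t : ℝ) * (Psi t * Real.exp 26) := mul_le_mul_of_nonneg_left h2 h3
    _ = _ := by ring

theorem gw_le {w n : ℕ} (hn : n ≠ 0) (hwn : w ∣ n) (hw : Squarefree w) :
    gw w ≤ ((n.divisors.card : ℕ) : ℝ) ^ 5 / w := by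
  have h1 : gw w = 26 ^ w.primeFactors.card / (w : ℝ) := by
    unfold gw
    rw [Finset.prod_div_distrib, Finset.prod_const]
    congr 1
    rw [← Nat.cast_prod, Nat.prod_primeFactors_of_squarefree hw]
  rw [h1]
  apply div_le_div_of_nonneg_right _ (Nat.cast_nonneg w)
  have h2 : 2 ^ w.primeFactors.card ≤ w.divisors.card := by
    rw [Nat.card_divisors hw.ne_zero, ← Finset.prod_const]
    apply Finset.prod_le_prod'
    intro p hp
    have := (Nat.prime_of_mem_primeFactors hp).factorization_pos_of_dvd hw.ne_zero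
      (Nat.dvd_of_mem_primeFactors hp)
    omega
  have h3 : w.divisors.card ≤ n.divisors.card :=
    Finset.card_le_card (Nat.divisors_subset_of_dvd hn hwn)
  have h4 : (2 : ℝ) ^ w.primeFactors.card ≤ (n.divisors.card : ℝ) := by
    exact_mod_cast h2.trans h3
  calc (26 : ℝ) ^ w.primeFactors.card ≤ 32 ^ w.primeFactors.card :=
        pow_le_pow_left₀ (by norm_num) (by norm_num) _
    _ = ((2 : ℝ) ^ w.primeFactors.card) ^ 5 := by
        rw [← pow_mul, mul_comm, pow_mul]
        norm_num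
    _ ≤ (n.divisors.card : ℝ) ^ 5 := pow_le_pow_left₀ (by positivity) h4 5

/-- The large divisors. -/
theorem large_sum (S : Set ℕ) {n t Y : ℕ} (hn : n ≠ 0) (hY : 0 < Y) :
    ∑ w ∈ (n.divisors.filter (SF S)).filter (fun w => ¬ t * w ≤ Y), gw w ≤
      ((n.divisors.card : ℕ) : ℝ) ^ 6 * (t / Y) := by
  have h1 : ∀ w ∈ (n.divisors.filter (SF S)).filter (fun w => ¬ t * w ≤ Y),
      gw w ≤ ((n.divisors.card : ℕ) : ℝ) ^ 5 * (t / Y) := by
    intro w hw
    rw [mem_filter, mem_filter, Nat.mem_divisors] at hw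
    have hsf := hw.1.2.1
    refine (gw_le hn hw.1.1.1 hsf).trans ?_
    rw [div_eq_mul_inv]
    apply mul_le_mul_of_nonneg_left _ (by positivity)
    have hw0 : (0 : ℝ) < w := by
      have := hsf.ne_zero
      exact_mod_cast Nat.pos_of_ne_zero this
    have hY' : (0 : ℝ) < Y := by exact_mod_cast hY
    have h2 : (Y : ℝ) ≤ t * w := by
      have := hw.2
      have h3 : Y ≤ t * w := by omega
      exact_mod_cast h3
    rw [inv_eq_one_div, div_le_div_iff₀ hw0 hY']
    linarith
  refine (Finset.sum_le_sum h1).trans ?_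
  rw [Finset.sum_const, nsmul_eq_mul]
  have h2 : (((n.divisors.filter (SF S)).filter (fun w => ¬ t * w ≤ Y)).card : ℝ) ≤
      (n.divisors.card : ℝ) := by
    exact_mod_cast Finset.card_le_card ((Finset.filter_subset _ _).trans (Finset.filter_subset _ _))
  have h3 : 0 ≤ ((n.divisors.card : ℕ) : ℝ) ^ 5 * ((t : ℝ) / Y) := by positivity
  calc _ ≤ (n.divisors.card : ℝ) * (((n.divisors.card : ℕ) : ℝ) ^ 5 * ((t : ℝ) / Y)) :=
        mul_le_mul_of_nonneg_right h2 h3
    _ = _ := by ring

end Pool.Agent.Lib.MP_ba0fa5_ag.H78
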