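import Pool.Agent.Lib.MP_ba0fa5_ag.H78.Phi1

/-!
# Module NPHI, part 2: the PHI LEMMA
-/

set_option autoImplicit false

namespace Pool.Agent.Lib.MP_ba0fa5_ag.H78

open scoped Classical
open Finset

/-- The sum over `u` for one small `w`. -/
theorem one_w {S : Set ℕ} {K : ℕ} {C1 : ℝ} {y₀ : ℕ} (hC1 : 0 ≤ C1)
    (hap : ∀ y : ℕ, y₀ ≤ y → ∀ t a : ℕ, 1 ≤ t → t ^ 2 ≤ y → a.Coprime t →
      ∑ n ∈ (qset S y (y ^ K)).filter (fun n => n ≡ a [MOD t]), (1 : ℝ) / n ≤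
        C1 * (Real.log y) ^ (1 / 4 : ℝ) / t.totient)
    {U t w a₀ α : ℕ} {β : ℤ} (hU : y₀ ≤ U) (ht : 1 ≤ t) (ha : a₀.Coprime t)
    (hg : Int.gcd α β = 1) (hw : SF S w) (htw : (t * w) ^ 2 ≤ U) :
    ∑ u ∈ ((qset S U (U ^ K)).filter (fun u : ℕ => u ≡ a₀ [MOD t] ∧ (α * u : ℤ) + β ≠ 0)).filter
      (fun u : ℕ => w ∣ ((α * u : ℤ) + β).natAbs), (1 : ℝ) / u ≤
      C1 * (Real.log U) ^ (1 / 4 : ℝ) / (Nat.lcm t w).totient := by
  set V := ((qset S U (U ^ K)).filter (fun u : ℕ => u ≡ a₀ [MOD t] ∧ (α * u : ℤ) + β ≠ 0)).filter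
      (fun u : ℕ => w ∣ ((α * u : ℤ) + β).natAbs) with hV
  have hRHS : 0 ≤ C1 * (Real.log U) ^ (1 / 4 : ℝ) / (Nat.lcm t w).totient := by
    have : 0 ≤ Real.log U := Real.log_natCast_nonneg U
    positivity
  rcases V.eq_empty_or_nonempty with he | ⟨u₁, hu₁⟩
  · rw [he, Finset.sum_empty]
    exact hRHS
  · have hw0 : w ≠ 0 := hw.1.ne_zero
    have hlcm : Nat.lcm t w ∣ t * w := Nat.lcm_dvd (dvd_mul_right _ _) (dvd_mul_left _ _)
    have hlcm_le : Nat.lcm t w ≤ t * w :=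
      Nat.le_of_dvd (Nat.mul_pos (by omega) (Nat.pos_of_ne_zero hw0)) hlcm
    have hlcm_pos : 1 ≤ Nat.lcm t w := Nat.lcm_pos (by omega) (Nat.pos_of_ne_zero hw0)
    have hmem : ∀ u ∈ V, u ∈ qset S U (U ^ K) ∧ u ≡ a₀ [MOD t] ∧ (w : ℤ) ∣ (α * u : ℤ) + β := by
      intro u hu
      rw [hV, mem_filter, mem_filter] at hu
      exact ⟨hu.1.1, hu.1.2.1, Int.natCast_dvd.2 hu.2⟩
    obtain ⟨m1, m2, m3⟩ := hmem u₁ hu₁
    have hinq : InQ S u₁ := (mem_filter.1 m1).2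
    have hcw : u₁.Coprime w := by
      apply Nat.Coprime.symm
      apply Nat.coprime_of_dvd
      intro l hl h1 h2
      exact hw.2 l hl h1 (hinq.2 l hl h2)
    have hct : u₁.Coprime t := by
      have := m2.gcd_eq
      unfold Nat.Coprime at ha ⊢
      rw [this, ha]
    have hcop : u₁.Coprime (Nat.lcm t w) :=
      Nat.Coprime.coprime_dvd_right hlcm (Nat.Coprime.mul_right hct hcw)
    have hwα : Nat.Coprime w α := by
      apply Nat.coprime_of_dvd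
      intro l hl h1 h2
      have e1 : (l : ℤ) ∣ (α * u₁ : ℤ) + β := (Int.natCast_dvd_natCast.2 h1).trans m3
      have e2 : (l : ℤ) ∣ (α * u₁ : ℤ) := (Int.natCast_dvd_natCast.2 h2).mul_right _
      have e3 : (l : ℤ) ∣ β := (dvd_add_right e2).1 e1
      have e4 : (l : ℤ) ∣ (Int.gcd α β : ℤ) := Int.dvd_coe_gcd (Int.natCast_dvd_natCast.2 h2) e3
      rw [hg] at e4
      have e5 : l ∣ 1 := by exact_mod_cast e4
      exact hl.one_lt.ne' (Nat.dvd_one.1 e5)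
    have hsub : V ⊆ (qset S U (U ^ K)).filter (fun n => n ≡ u₁ [MOD (Nat.lcm t w)]) := by
      intro u hu
      obtain ⟨n1, n2, n3⟩ := hmem u hu
      rw [mem_filter]
      refine ⟨n1, ?_⟩
      have e1 : (t : ℤ) ∣ (u₁ : ℤ) - u := Nat.modEq_iff_dvd.1 (n2.trans m2.symm)
      have e2 : (w : ℤ) ∣ (α : ℤ) * ((u₁ : ℤ) - u) := by
        have := dvd_sub m3 n3
        have e : (α * u₁ : ℤ) + β - ((α * u : ℤ) + β) = (α : ℤ) * ((u₁ : ℤ) - u) := by ring
        rw [e] at this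
        exact this
      have e3 : (w : ℤ) ∣ (u₁ : ℤ) - u :=
        IsCoprime.dvd_of_dvd_mul_left (Nat.isCoprime_iff_coprime.2 hwα) e2
      rw [Nat.modEq_iff_dvd]
      rw [Int.natCast_dvd] at e1 e3 ⊢
      exact Nat.lcm_dvd e1 e3
    have h2 : (Nat.lcm t w) ^ 2 ≤ U := (Nat.pow_le_pow_left hlcm_le 2).trans htw
    refine le_trans ?_ (hap U hU (Nat.lcm t w) u₁ hlcm_pos h2 hcop)
    exact Finset.sum_le_sum_of_subset_of_nonneg hsub (fun _ _ _ => by positivity)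

theorem nphi (h1 : NapsumStmt) (h2 : NaptrivStmt) : NphiStmt := by
  intro S K hS hK
  obtain ⟨C1', y₀, hap'⟩ := h1 S K hS (by omega)
  obtain ⟨C2', htr'⟩ := h2 K (by omega)
  -- nonnegative constants
  obtain ⟨C1, hC1, hap⟩ : ∃ C1 : ℝ, 0 ≤ C1 ∧ ∀ y : ℕ, y₀ ≤ y → ∀ t a : ℕ, 1 ≤ t → t ^ 2 ≤ y →
      a.Coprime t → ∑ n ∈ (qset S y (y ^ K)).filter (fun n => n ≡ a [MOD t]), (1 : ℝ) / n ≤
        C1 * (Real.log y) ^ (1 / 4 : ℝ) / t.totient := by
    refine ⟨max C1' 0, le_max_right _ _, fun y hy t a ht hty ha => ?_⟩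
    refine (hap' y hy t a ht hty ha).trans ?_
    have : 0 ≤ Real.log y := Real.log_natCast_nonneg y
    gcongr
    exact le_max_left _ _
  obtain ⟨C2, hC2, htr⟩ : ∃ C2 : ℝ, 0 ≤ C2 ∧ ∀ y t a : ℕ, 2 ≤ y → 1 ≤ t →
      ∑ n ∈ (Finset.Ioc y (y ^ K)).filter (fun n => n ≡ a [MOD t]), (1 : ℝ) / n ≤
        1 / y + C2 * Real.log y / t := by
    refine ⟨max C2' 0, le_max_right _ _, fun y t a hy ht => ?_⟩
    refine (htr' y t a hy ht).trans ?_
    have : 0 ≤ Real.log y := Real.log_natCast_nonneg y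
    gcongr
    exact le_max_left _ _
  -- the divisor bound
  obtain ⟨E, hE⟩ : ∃ E : ℕ, E = 8 * (3 * K + 12 * K * K) + 12 * K * K + 1 := ⟨_, rfl⟩
  have hE0 : (0 : ℝ) < E := by rw [hE]; positivity
  obtain ⟨C0, hC0, hdiv⟩ := Pool.Agent.Lib.MP_3ae5b0_nt.divisor_bound (1 / (6 * E)) (by positivity)
  obtain ⟨C3, hC3⟩ : ∃ C3 : ℝ, C3 = C0 ^ 6 * (2 + 12 * K * C2) := ⟨_, rfl⟩
  have hC3p : 0 ≤ C3 := by rw [hC3]; positivity
  refine ⟨C1 * (12 * K : ℝ) ^ (1 / 4 : ℝ) * Real.exp 26 + 2 * C3, max y₀ 3, ?_⟩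
  intro Z hZ t a₀ α β ht htZ ha hα1 hαX hβ hg
  have hZ3 : 3 ≤ Z := le_trans (le_max_right _ _) hZ
  have hZy : y₀ ≤ Z := le_trans (le_max_left _ _) hZ
  have hZr : (3 : ℝ) ≤ Z := by exact_mod_cast hZ3
  have hZ1 : (1 : ℝ) ≤ Z := by linarith
  have hlogZ1 : 1 ≤ Real.log Z := by
    rw [Real.le_log_iff_exp_le (by linarith)]
    exact (Real.exp_one_lt_d9.le.trans (by norm_num)).trans hZr
  have hlogZ : Real.log Z ≤ Z := (Real.log_le_sub_one_of_pos (by linarith)).trans (by linarith)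
  have hU1 : U2 K Z = (U1 K Z) ^ K := by
    unfold U2 U1
    rw [← pow_mul]
  have hYU : (Z ^ (6 * K)) ^ 2 = U1 K Z := by
    unfold U1
    rw [← pow_mul]
    congr 1
    ring
  have hUZ : Z ≤ U1 K Z := by
    unfold U1
    calc Z = Z ^ 1 := (pow_one Z).symm
      _ ≤ Z ^ (12 * K) := Nat.pow_le_pow_right (by omega) (by omega)
  set Y := Z ^ (6 * K) with hY
  have hYpos : 0 < Y := Nat.pow_pos (by omega)
  set V := (qset S (U1 K Z) (U2 K Z)).filter
    (fun u : ℕ => u ≡ a₀ [MOD t] ∧ (α * u : ℤ) + β ≠ 0) with hV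
  have hVn : ∀ u ∈ V, ((α * u : ℤ) + β).natAbs ≠ 0 := by
    intro u hu
    rw [Ne, Int.natAbs_eq_zero]
    exact (mem_filter.1 hu).2.2
  -- expansion
  have step1 : ∑ u ∈ V, Phi S ((α * u : ℤ) + β).natAbs ^ 3 / u ≤
      ∑ u ∈ V, ((∑ w ∈ ((((α * u : ℤ) + β).natAbs).divisors.filter (SF S)).filter
          (fun w => t * w ≤ Y), gw w * (1 / (u : ℝ))) +
        ((C0 ^ 6 * Z) * (t / Y)) * (1 / (u : ℝ))) := by
    apply Finset.sum_le_sum
    intro u hu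
    have hn := hVn u hu
    have e1 := phi_cube S hn
    rw [← Finset.sum_filter_add_sum_filter_not _ (fun w => t * w ≤ Y)] at e1
    have e2 := large_sum S (t := t) hn hYpos
    have hn1 : (((α * u : ℤ) + β).natAbs : ℝ) ≤ (Z : ℝ) ^ E := by
      have hu2 : u ≤ U2 K Z := by
        have := (mem_filter.1 hu).1
        exact (mem_Ioc.1 (mem_filter.1 this).1).2
      have f1 : ((α * u : ℤ) + β).natAbs ≤ α * u + β.natAbs := by
        have := Int.natAbs_add_le (α * u : ℤ) β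
        have f2 : ((α * u : ℤ)).natAbs = α * u := by
          rw [← Nat.cast_mul, Int.natAbs_natCast]
        rw [f2] at this
        exact this
      have f2 : β.natAbs ≤ XX K Z := by
        have h := hβ
        rw [Int.abs_eq_natAbs] at h
        exact_mod_cast h
      have f3 : 1 ≤ U2 K Z := Nat.one_le_pow _ _ (by omega)
      have f4 : α * u + β.natAbs ≤ XX K Z * U2 K Z + XX K Z * U2 K Z :=
        Nat.add_le_add (Nat.mul_le_mul hαX hu2) (f2.trans (Nat.le_mul_of_pos_right _ f3))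
      have f5 : XX K Z * U2 K Z + XX K Z * U2 K Z ≤ Z ^ E := by
        have g1 : XX K Z * U2 K Z = Z ^ (8 * (3 * K + 12 * K * K) + 12 * K * K) := by
          unfold XX U2
          rw [← pow_add]
        have g2 : Z ^ E = Z ^ (8 * (3 * K + 12 * K * K) + 12 * K * K) * Z := by
          rw [hE, pow_succ]
        rw [g2, g1]
        nlinarith [Nat.pow_pos (n := 8 * (3 * K + 12 * K * K) + 12 * K * K) (show 0 < Z by omega)]
      have := f1.trans (f4.trans f5)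
      exact_mod_cast this
    have hd6 : ((((α * u : ℤ) + β).natAbs.divisors.card : ℕ) : ℝ) ^ 6 ≤ C0 ^ 6 * Z := by
      have g1 := hdiv _ hn
      have g2 : ((((α * u : ℤ) + β).natAbs : ℕ) : ℝ) ^ (1 / (6 * (E : ℝ))) ≤
          (Z : ℝ) ^ (1 / 6 : ℝ) := by
        calc ((((α * u : ℤ) + β).natAbs : ℕ) : ℝ) ^ (1 / (6 * (E : ℝ)))
            ≤ ((Z : ℝ) ^ E) ^ (1 / (6 * (E : ℝ))) :=
              Real.rpow_le_rpow (Nat.cast_nonneg _) hn1 (by positivity)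
          _ = (Z : ℝ) ^ (1 / 6 : ℝ) := by
              rw [← Real.rpow_natCast, ← Real.rpow_mul (by linarith)]
              congr 1
              field_simp
      have g3 : ((((α * u : ℤ) + β).natAbs.divisors.card : ℕ) : ℝ) ≤
          C0 * (Z : ℝ) ^ (1 / 6 : ℝ) := g1.trans (mul_le_mul_of_nonneg_left g2 (by linarith))
      calc ((((α * u : ℤ) + β).natAbs.divisors.card : ℕ) : ℝ) ^ 6
          ≤ (C0 * (Z : ℝ) ^ (1 / 6 : ℝ)) ^ 6 := pow_le_pow_left₀ (Nat.cast_nonneg _) g3 6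
        _ = C0 ^ 6 * Z := by
            rw [mul_pow, ← Real.rpow_natCast ((Z : ℝ) ^ (1 / 6 : ℝ)), ← Real.rpow_mul (by linarith)]
            norm_num
    have e3 : Phi S ((α * u : ℤ) + β).natAbs ^ 3 ≤
        (∑ w ∈ ((((α * u : ℤ) + β).natAbs).divisors.filter (SF S)).filter
          (fun w => t * w ≤ Y), gw w) + (C0 ^ 6 * Z) * (t / Y) := by
      refine e1.trans (add_le_add le_rfl (e2.trans ?_))
      exact mul_le_mul_of_nonneg_right hd6 (by positivity)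
    have hu0 : 0 ≤ 1 / (u : ℝ) := by positivity
    calc Phi S ((α * u : ℤ) + β).natAbs ^ 3 / u
        = Phi S ((α * u : ℤ) + β).natAbs ^ 3 * (1 / (u : ℝ)) := by ring
      _ ≤ ((∑ w ∈ ((((α * u : ℤ) + β).natAbs).divisors.filter (SF S)).filter
          (fun w => t * w ≤ Y), gw w) + (C0 ^ 6 * Z) * (t / Y)) * (1 / (u : ℝ)) :=
          mul_le_mul_of_nonneg_right e3 hu0
      _ = _ := by rw [add_mul, Finset.sum_mul]
  rw [Finset.sum_add_distrib] at step1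
  -- the small `w`
  set I := (Icc 1 Y).filter (fun w => SF S w ∧ t * w ≤ Y) with hI
  have step2 : ∑ u ∈ V, ∑ w ∈ ((((α * u : ℤ) + β).natAbs).divisors.filter (SF S)).filter
      (fun w => t * w ≤ Y), gw w * (1 / (u : ℝ)) =
      ∑ w ∈ I, ∑ u ∈ V.filter (fun u : ℕ => w ∣ ((α * u : ℤ) + β).natAbs), gw w * (1 / (u : ℝ)) := by
    apply Finset.sum_comm'
    intro u w
    simp only [mem_filter, Nat.mem_divisors, hI, mem_Icc]
    constructor
    · rintro ⟨hu, ⟨⟨hwn, _⟩, hsf⟩, htw⟩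
      refine ⟨⟨hu, hwn⟩, ⟨?_, ?_⟩, hsf, htw⟩
      · exact Nat.pos_of_ne_zero hsf.1.ne_zero
      · exact (Nat.le_mul_of_pos_left w (by omega)).trans htw
    · rintro ⟨⟨hu, hwn⟩, _, hsf, htw⟩
      exact ⟨hu, ⟨⟨hwn, hVn u hu⟩, hsf⟩, htw⟩
  have step3 : ∑ w ∈ I, ∑ u ∈ V.filter (fun u : ℕ => w ∣ ((α * u : ℤ) + β).natAbs),
      gw w * (1 / (u : ℝ)) ≤
      (C1 * (Real.log (U1 K Z)) ^ (1 / 4 : ℝ)) * (Psi t / (Nat.totient t : ℝ) * Real.exp 26) := by
    have hIs : ∀ w ∈ I, Squarefree w ∧ w ≤ Y := by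
      intro w hw
      rw [hI, mem_filter, mem_Icc] at hw
      exact ⟨hw.2.1.1, hw.1.2⟩
    have hlog : 0 ≤ Real.log (U1 K Z) := Real.log_natCast_nonneg _
    calc ∑ w ∈ I, ∑ u ∈ V.filter (fun u : ℕ => w ∣ ((α * u : ℤ) + β).natAbs), gw w * (1 / (u : ℝ))
        ≤ ∑ w ∈ I, gw w * (C1 * (Real.log (U1 K Z)) ^ (1 / 4 : ℝ) / (Nat.lcm t w).totient) := by
          apply Finset.sum_le_sum
          intro w hw
          rw [← Finset.mul_sum]
          apply mul_le_mul_of_nonneg_left _ (gw_nonneg w)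
          rw [hI, mem_filter] at hw
          rw [hV, hU1]
          refine one_w hC1 hap (hZy.trans hUZ) ht ha hg hw.2.1 ?_
          rw [← hYU]
          exact Nat.pow_le_pow_left hw.2.2 2
      _ = (C1 * (Real.log (U1 K Z)) ^ (1 / 4 : ℝ)) *
            ∑ w ∈ I, gw w / (Nat.totient (Nat.lcm t w) : ℝ) := by
          rw [Finset.mul_sum]
          apply Finset.sum_congr rfl
          intro w _
          ring
      _ ≤ _ := mul_le_mul_of_nonneg_left (small_sum ht Y I hIs) (by positivity)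
  -- the large `w`
  have step4 : ∑ u ∈ V, ((C0 ^ 6 * Z) * (t / Y)) * (1 / (u : ℝ)) ≤
      ((C0 ^ 6 * Z) * (t / Y)) * (1 / (U1 K Z : ℝ) + C2 * Real.log (U1 K Z) / t) := by
    rw [← Finset.mul_sum]
    apply mul_le_mul_of_nonneg_left _ (by positivity)
    refine le_trans ?_ (htr (U1 K Z) t a₀ (by omega) ht)
    apply Finset.sum_le_sum_of_subset_of_nonneg _ (fun _ _ _ => by positivity)
    intro u hu
    rw [hV, mem_filter] at hu
    rw [mem_filter]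
    refine ⟨?_, hu.2.1⟩
    rw [← hU1]
    exact (mem_filter.1 hu.1).1
  have hlogU : Real.log (U1 K Z) = 12 * K * Real.log Z := by
    unfold U1
    rw [Nat.cast_pow, Real.log_pow]
    push_cast
    ring
  have htr0 : (0 : ℝ) < t := by exact_mod_cast (by omega : 0 < t)
  have hYr : (0 : ℝ) < Y := by exact_mod_cast hYpos
  have hKr : (0 : ℝ) ≤ K := Nat.cast_nonneg K
  have step5 : ((C0 ^ 6 * Z) * (t / Y)) * (1 / (U1 K Z : ℝ) + C2 * Real.log (U1 K Z) / t) ≤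
      C3 * ((Z : ℝ) ^ 2 / Y) := by
    have hUr : (0 : ℝ) < U1 K Z := by exact_mod_cast (by omega : 0 < U1 K Z)
    have e1 : (t : ℝ) / U1 K Z ≤ 2 := by
      rw [div_le_iff₀ hUr]
      have : t ≤ 2 * U1 K Z := by
        refine htZ.trans (Nat.mul_le_mul_left 2 ?_)
        unfold U1
        exact Nat.pow_le_pow_right (by omega) (by omega)
      exact_mod_cast this
    have e2 : ((C0 ^ 6 * Z) * (t / Y)) * (1 / (U1 K Z : ℝ) + C2 * Real.log (U1 K Z) / t) =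
        C0 ^ 6 * (Z / Y) * (t / U1 K Z + C2 * Real.log (U1 K Z)) := by
      field_simp
    rw [e2, hC3]
    have e3 : (t : ℝ) / U1 K Z + C2 * Real.log (U1 K Z) ≤ (2 + 12 * K * C2) * Z := by
      rw [hlogU]
      have f1 : C2 * (12 * K * Real.log Z) ≤ C2 * (12 * K * Z) := by gcongr
      nlinarith
    have e4 : C0 ^ 6 * ((Z : ℝ) / Y) * (t / U1 K Z + C2 * Real.log (U1 K Z)) ≤
        C0 ^ 6 * ((Z : ℝ) / Y) * ((2 + 12 * K * C2) * Z) :=
      mul_le_mul_of_nonneg_left e3 (by positivity)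
    refine e4.trans (le_of_eq ?_)
    ring
  have hphi0 : 0 < Nat.totient t := Nat.totient_pos.2 (by omega)
  have hphir : (0 : ℝ) < Nat.totient t := by exact_mod_cast hphi0
  have hpsi1 : 1 ≤ Psi t := by
    unfold Psi
    calc (1 : ℝ) = ∏ l ∈ t.primeFactors, (1 : ℝ) := by simp
      _ ≤ ∏ l ∈ t.primeFactors, (1 + 52 / (l : ℝ)) :=
        Finset.prod_le_prod (fun _ _ => by norm_num) fun l _ => by
          have : 0 ≤ 52 / (l : ℝ) := by positivity
          linarith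
  have hlq : 1 ≤ (Real.log Z) ^ (1 / 4 : ℝ) := Real.one_le_rpow hlogZ1 (by norm_num)
  have step6 : (Z : ℝ) ^ 2 / Y ≤ 2 * ((Real.log Z) ^ (1 / 4 : ℝ) * Psi t / t.totient) := by
    have e1 : (Z : ℝ) ^ 2 / Y ≤ 2 / t := by
      rw [div_le_div_iff₀ hYr htr0]
      have f1 : (t : ℝ) ≤ 2 * (Z : ℝ) ^ (5 * K) := by exact_mod_cast htZ
      have f2 : (Y : ℝ) = (Z : ℝ) ^ (6 * K) := by rw [hY, Nat.cast_pow]
      have f3 : (Z : ℝ) ^ 2 * (Z : ℝ) ^ (5 * K) ≤ (Z : ℝ) ^ (6 * K) := by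
        rw [← pow_add]
        exact pow_le_pow_right₀ hZ1 (by omega)
      rw [f2]
      have f4 : (Z : ℝ) ^ 2 * t ≤ (Z : ℝ) ^ 2 * (2 * (Z : ℝ) ^ (5 * K)) :=
        mul_le_mul_of_nonneg_left f1 (by positivity)
      linarith
    have e2 : (1 : ℝ) / t ≤ (Real.log Z) ^ (1 / 4 : ℝ) * Psi t / t.totient := by
      rw [div_le_div_iff₀ htr0 hphir]
      have f1 : (Nat.totient t : ℝ) ≤ t := by exact_mod_cast Nat.totient_le t
      have f2 : 1 ≤ (Real.log Z) ^ (1 / 4 : ℝ) * Psi t := by nlinarith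
      nlinarith
    have e3 : (2 : ℝ) / t = 2 * (1 / t) := by ring
    rw [e3] at e1
    linarith
  have hlogU4 : (Real.log (U1 K Z)) ^ (1 / 4 : ℝ) =
      (12 * K : ℝ) ^ (1 / 4 : ℝ) * (Real.log Z) ^ (1 / 4 : ℝ) := by
    rw [hlogU, Real.mul_rpow (by positivity) (by linarith)]
  rw [step2] at step1
  refine step1.trans ((add_le_add step3 (step4.trans step5)).trans ?_)
  rw [hlogU4]
  have e5 : C3 * ((Z : ℝ) ^ 2 / Y) ≤
      C3 * (2 * ((Real.log Z) ^ (1 / 4 : ℝ) * Psi t / t.totient)) :=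
    mul_le_mul_of_nonneg_left step6 hC3p
  refine (add_le_add le_rfl e5).trans (le_of_eq ?_)
  ring

end Pool.Agent.Lib.MP_ba0fa5_ag.H78
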